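import Pool.Agent.LSG.StmtsA

/-!
# Squad LSG (MP_005a41_gt), row BDS: the supports of the points of a compact set are bounded
(helper98)
-/

set_option autoImplicit false

namespace Pool.Agent.LSG.H98

open MeasureTheory Set Topology Pool.Agent.LSG

/-- solution of a triangular system -/
noncomputable def lam (t : ℕ → ℕ → ℝ) : ℕ → ℝ
  | k => ((k : ℝ) - ∑ j : Fin k, lam t j.1 * t k j.1) / t k k
termination_by k => k
decreasing_by exact j.2

theorem lam_spec (t : ℕ → ℕ → ℝ) (ht : ∀ k, t k k ≠ 0) (k : ℕ) :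
    ∑ j ∈ Finset.range (k + 1), lam t j * t k j = k := by
  rw [Finset.sum_range_succ, Finset.sum_range]
  rw [lam]
  field_simp [ht k]
  ring

theorem bump {X : Type} [TopologicalSpace X] [TopologicalSpace.MetrizableSpace X]
    (F : Finset (X × ℤ)) (a : X × ℤ) : ∃ f : C(X × ℤ, ℝ), f a = 1 ∧
      (∀ p ∈ F, p ≠ a → f p = 0) ∧ ∀ p : X × ℤ, p.2 ≠ a.2 → f p = 0 := by
  classical
  let _ := TopologicalSpace.metrizableSpaceMetric (X × ℤ)
  have hs : IsClosed (((F.erase a : Finset (X × ℤ)) : Set (X × ℤ)) ∪ {p : X × ℤ | p.2 ≠ a.2}) := by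
    apply IsClosed.union (Finset.finite_toSet _).isClosed
    have h1 : IsClosed ((fun p : X × ℤ => p.2) ⁻¹' {z : ℤ | z ≠ a.2}) :=
      (isClosed_discrete _).preimage continuous_snd
    exact h1
  have hd : Disjoint (((F.erase a : Finset (X × ℤ)) : Set (X × ℤ)) ∪ {p : X × ℤ | p.2 ≠ a.2})
      ({a} : Set (X × ℤ)) := by
    rw [Set.disjoint_singleton_right]
    rintro (h | h)
    · simp at h
    · exact h rfl
  obtain ⟨f, h0, h1, -⟩ := exists_continuous_zero_one_of_isClosed hs isClosed_singleton hd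
  refine ⟨f, h1 (Set.mem_singleton a), fun p hp hne => ?_, fun p hp => ?_⟩
  · exact h0 (Or.inl (by simp [hp, hne]))
  · exact h0 (Or.inr hp)

theorem bds : BdsStmt := by
  classical
  intro X Y _ _ _ T c hT Q hQ
  by_contra hcon
  push Not at hcon
  choose yM hyQ aM hc0 hbig using hcon
  -- bound of the support
  obtain ⟨B, hB⟩ : ∃ B : Y → ℕ, ∀ y a, c y a ≠ 0 → |a.2| ≤ (B y : ℤ) := by
    refine ⟨fun y => (c y).support.sup fun a => a.2.natAbs, fun y a ha => ?_⟩
    have h1 : a.2.natAbs ≤ (c y).support.sup fun a => a.2.natAbs :=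
      Finset.le_sup (f := fun a : X × ℤ => a.2.natAbs) (Finsupp.mem_support_iff.2 ha)
    have h2 : |a.2| = (a.2.natAbs : ℤ) := Int.abs_eq_natAbs a.2
    rw [h2]
    exact_mod_cast h1
  obtain ⟨M, hM1⟩ : ∃ M : ℕ → ℕ, ∀ k, M (k + 1) = max (M k) (B (yM (M k))) :=
    ⟨fun k => Nat.rec 0 (fun _ m => max m (B (yM m))) k, fun k => rfl⟩
  have hmono : Monotone M := monotone_nat_of_le_succ fun k => by rw [hM1]; exact le_max_left _ _
  let y : ℕ → Y := fun k => yM (M k)
  let a : ℕ → X × ℤ := fun k => aM (M k)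
  have hsupp : ∀ (k : ℕ) (p : X × ℤ), c (y k) p ≠ 0 → |p.2| ≤ (M (k + 1) : ℤ) := by
    intro k p hp
    have h1 := hB (y k) p hp
    have h2 : B (y k) ≤ M (k + 1) := by rw [hM1]; exact le_max_right _ _
    exact h1.trans (by exact_mod_cast h2)
  have hak : ∀ k : ℕ, c (y k) (a k) ≠ 0 := fun k => hc0 (M k)
  have hlt : ∀ k : ℕ, ((M k : ℕ) : ℤ) < |(a k).2| := by
    intro k
    exact hbig (M k)
  have hfar : ∀ (k j : ℕ) (p : X × ℤ), c (y k) p ≠ 0 → k < j → |p.2| < |(a j).2| := by
    intro k j p hp hkj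
    have h1 := hsupp k p hp
    have h2 : M (k + 1) ≤ M j := hmono hkj
    have h3 := hlt j
    have h4 : (M (k + 1) : ℤ) ≤ (M j : ℤ) := by exact_mod_cast h2
    linarith
  have hMk : ∀ k, k ≤ M k := by
    intro k
    induction k with
    | zero => exact Nat.zero_le _
    | succ k ih =>
      have h1 := hlt k
      have h2 := hsupp k (a k) (hak k)
      have h3 : (M k : ℤ) < (M (k + 1) : ℤ) := lt_of_lt_of_le h1 h2
      have h4 : M k < M (k + 1) := by exact_mod_cast h3
      omega
  choose φ hφ1 hφ0 hφl using fun k => bump (c (y k)).support (a k)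
  have hfar2 : ∀ (j : ℕ) (p : X × ℤ), p.2.natAbs < j → φ j p = 0 := by
    intro j p hp
    apply hφl j p
    intro h
    have h1 := hlt j
    have h2 : |p.2| = (p.2.natAbs : ℤ) := Int.abs_eq_natAbs p.2
    rw [← h, h2] at h1
    have h3 : M j < p.2.natAbs := by exact_mod_cast h1
    have h4 := hMk j
    omega
  have hfar3 : ∀ (k j : ℕ) (p : X × ℤ), c (y k) p ≠ 0 → k < j → φ j p = 0 := by
    intro k j p hp hkj
    apply hφl j p
    intro h
    have h1 := hfar k j p hp hkj
    rw [h] at h1
    exact lt_irrefl _ h1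
  have hTφ : ∀ k, T (φ k) (y k) = c (y k) (a k) := by
    intro k
    rw [hT (φ k) (y k), Finsupp.sum]
    rw [Finset.sum_eq_single (a k)]
    · rw [hφ1 k, mul_one]
    · intro p hp hne
      rw [hφ0 k p hp hne, mul_zero]
    · intro h
      exact absurd (Finsupp.mem_support_iff.2 (hak k)) h
  let t : ℕ → ℕ → ℝ := fun k j => T (φ j) (y k)
  have ht : ∀ k, t k k ≠ 0 := fun k => by
    show T (φ k) (y k) ≠ 0
    rw [hTφ k]; exact hak k
  have hlam := lam_spec t ht
  let f : C(X × ℤ, ℝ) :=
    { toFun := fun p => ∑ j ∈ Finset.range (p.2.natAbs + 1), lam t j * φ j p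
      continuous_toFun := by
        rw [continuous_prod_of_discrete_right]
        intro z
        show Continuous fun x : X => ∑ j ∈ Finset.range (z.natAbs + 1), lam t j * φ j (x, z)
        refine continuous_finsetSum _ fun j _ => ?_
        exact continuous_const.mul ((φ j).continuous.comp (continuous_id.prodMk continuous_const)) }
  have hfval : ∀ k p, c (y k) p ≠ 0 → f p = ∑ j ∈ Finset.range (k + 1), lam t j * φ j p := by
    intro k p hp
    show ∑ j ∈ Finset.range (p.2.natAbs + 1), lam t j * φ j p = _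
    rcases le_total p.2.natAbs k with h | h
    · refine Finset.sum_subset (Finset.range_mono (by omega)) fun j hj hj2 => ?_
      rw [Finset.mem_range] at hj hj2
      rw [hfar2 j p (by omega), mul_zero]
    · refine (Finset.sum_subset (Finset.range_mono (by omega)) fun j hj hj2 => ?_).symm
      rw [Finset.mem_range] at hj hj2
      rw [hfar3 k j p hp (by omega), mul_zero]
  have hTf : ∀ k, T f (y k) = k := by
    intro k
    rw [← hlam k, hT f (y k), Finsupp.sum]
    have e1 : ∀ j, t k j = ∑ p ∈ (c (y k)).support, c (y k) p * φ j p := by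
      intro j
      show T (φ j) (y k) = _
      rw [hT (φ j) (y k), Finsupp.sum]
    simp only [e1]
    rw [Finset.sum_congr rfl (fun p hp => by
      rw [hfval k p (Finsupp.mem_support_iff.1 hp)])]
    simp only [Finset.mul_sum]
    rw [Finset.sum_comm]
    refine Finset.sum_congr rfl fun j _ => Finset.sum_congr rfl fun p _ => ?_
    ring
  obtain ⟨C, hC⟩ := hQ.exists_bound_of_continuousOn (f := fun x => T f x) (T f).continuous.continuousOn
  obtain ⟨k, hk⟩ := exists_nat_gt C
  have h1 := hC (y k) (hyQ (M k))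
  rw [hTf k, Real.norm_eq_abs, abs_of_nonneg (Nat.cast_nonneg k)] at h1
  linarith

end Pool.Agent.LSG.H98
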